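import Pool.Agent.H.MP_670a4f_lc.Om

/-!
# MP_670a4f_lc: bipartite colour classes, every uncountable set gets all colours up to upper Banach density zero

PROOF. Moore's rectangle colouring `o` (oscillation of the coherent finite-to-one functions given by the maximal weights of
the minimal walks, counted along the lower trace, 2-adic valuation) takes every value on every product of two uncountable sets of countable
ordinals. Attach to the countable ordinals different 0-1 sequences `r a` and call the colour `n` allowed for the pair `a, b` if
the Walsh characters of `r a` and `r b` differ at `n`; so every colour class is bipartite. The pair `a < b` gets the colour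
`o a b` if it is allowed, otherwise the first allowed colour. If the colour `n` does not occur on the uncountable set `X`, then
the Walsh characters at `n` are equal for all but countably many elements of `X`; by orthogonality of Walsh characters on
dyadic intervals the set of these `n` has upper Banach density at most `1 / m` for every `m`.
-/

set_option autoImplicit false

namespace Pool.Agent.H.MP_670a4f_lc.V.BanachDensityBipartite

open Pool.Agent.H.MP_670a4f_lc

/-- In ZFC: there is a colouring `c` of the pairs of countable ordinals by natural numbers such that the graph of every
colour is bipartite (so `c` is triangle-free) and such that for every uncountable set `X` the set of the colours which do not occur on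
pairs from `X` has upper Banach density `0`. -/
theorem result : ∃ c : Sym2 {o : Ordinal.{0} // o < (Cardinal.aleph 1).ord} → ℕ,
    (∀ n : ℕ, ∃ f : {o : Ordinal.{0} // o < (Cardinal.aleph 1).ord} → Fin 2,
      ∀ a b, a ≠ b → c s(a, b) = n → f a ≠ f b) ∧
    ∀ X : Set {o : Ordinal.{0} // o < (Cardinal.aleph 1).ord}, ¬ X.Countable →
      ∀ ε : ℝ, 0 < ε → ∃ L₀ : ℕ, ∀ L ≥ L₀, ∀ s : ℕ,
        (({n : ℕ | ¬ ∃ a ∈ X, ∃ b ∈ X, a ≠ b ∧ c s(a, b) = n} ∩ Set.Ico s (s + L)).ncard : ℝ) ≤
          ε * L := by
  obtain ⟨r, hr⟩ := om_real
  exact good_dens om_countable hr

end Pool.Agent.H.MP_670a4f_lc.V.BanachDensityBipartite
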