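import Pool.Agent.H.MP_670a4f_lc.Om

/-!
# MP_670a4f_lc: arbitrarily slowly growing chromatic numbers of the colour classes

PROOF. As for Moore's rectangle colouring (see `Pool.Agent.H.MP_670a4f_lc.Osc`): the colour `n` is allowed for a pair `a, b` if
the 0-1 sequences attached to `a` and `b` differ at a place below `log (t n)`; the pair `a < b` gets Moore's colour if it
is allowed, otherwise the first allowed colour.
-/

set_option autoImplicit false

namespace Pool.Agent.H.MP_670a4f_lc.V.SlowChromatic

open Pool.Agent.H.MP_670a4f_lc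

/-- In ZFC: for every `t : ℕ → ℕ` with `t n ≥ 1` tending to infinity there is a colouring of the pairs of countable
ordinals by natural numbers such that the graph of the colour `n` is `t n`-colourable (so it has no clique with `t n + 1`
elements) and all but finitely many colours occur on every uncountable set. -/
theorem result : ∀ t : ℕ → ℕ, (∀ n, 1 ≤ t n) → Filter.Tendsto t Filter.atTop Filter.atTop →
    ∃ c : Sym2 {o : Ordinal.{0} // o < (Cardinal.aleph 1).ord} → ℕ,
      (∀ n : ℕ, ∃ f : {o : Ordinal.{0} // o < (Cardinal.aleph 1).ord} → Fin (t n),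
        ∀ a b, a ≠ b → c s(a, b) = n → f a ≠ f b) ∧
      ∀ X : Set {o : Ordinal.{0} // o < (Cardinal.aleph 1).ord}, ¬ X.Countable →
        {n : ℕ | ¬ ∃ a ∈ X, ∃ b ∈ X, a ≠ b ∧ c s(a, b) = n}.Finite := by
  intro t ht htt
  obtain ⟨r, hr⟩ := om_real
  exact good_slow om_countable hr t ht htt

end Pool.Agent.H.MP_670a4f_lc.V.SlowChromatic
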